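import Pool.Agent.H97.RK.Targets

/-!
# Board rks_modules, row PBN: many clauses with a rare property
-/

set_option autoImplicit false

namespace Pool.Agent.H54.RKS

open Finset
open Pool.Agent.H97.RK

open Classical in
theorem card_forall {α : Type} [Fintype α] (m : ℕ) (p : α → Prop) (S : Finset (Fin m)) :
    (univ.filter fun F : Fin m → α => ∀ c ∈ S, p (F c)).card =
      (univ.filter p).card ^ S.card * Fintype.card α ^ (m - S.card) := by
  have h1 : (univ.filter fun F : Fin m → α => ∀ c ∈ S, p (F c)) =
      Fintype.piFinset fun c => if c ∈ S then univ.filter p else univ := by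
    ext F
    simp only [mem_filter, mem_univ, true_and, Fintype.mem_piFinset]
    refine forall_congr' fun c => ?_
    by_cases hc : c ∈ S
    · simp [hc]
    · simp [hc]
  rw [h1, Fintype.card_piFinset]
  have h2 : ∀ c : Fin m, (if c ∈ S then univ.filter p else (univ : Finset α)).card =
      if c ∈ S then (univ.filter p).card else Fintype.card α := by
    intro c
    split_ifs
    · rfl
    · exact card_univ
  simp_rw [h2]
  rw [prod_ite, prod_const, prod_const]
  have h3 : (univ.filter fun c => c ∈ S) = S := by
    ext c
    simp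
  have h4 : (univ.filter fun c => c ∉ S) = Sᶜ := by
    ext c
    simp
  rw [h3, h4, card_compl, Fintype.card_fin]

open Classical in
theorem count_le {α : Type} [Fintype α] (m s : ℕ) (p : α → Prop) :
    (univ.filter fun F : Fin m → α => s ≤ (univ.filter fun c => p (F c)).card).card ≤
      m.choose s * ((univ.filter p).card ^ s * Fintype.card α ^ (m - s)) := by
  have h1 : (univ.filter fun F : Fin m → α => s ≤ (univ.filter fun c => p (F c)).card) ⊆
      (powersetCard s (univ : Finset (Fin m))).biUnion fun S =>
        univ.filter fun F : Fin m → α => ∀ c ∈ S, p (F c) := by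
    intro F hF
    rw [mem_filter] at hF
    obtain ⟨S, hS, hS'⟩ := exists_subset_card_eq hF.2
    rw [mem_biUnion]
    refine ⟨S, mem_powersetCard.2 ⟨subset_univ _, hS'⟩, ?_⟩
    rw [mem_filter]
    exact ⟨mem_univ _, fun c hc => (mem_filter.1 (hS hc)).2⟩
  refine (card_le_card h1).trans (card_biUnion_le.trans (le_of_eq ?_))
  have h2 : ∀ S ∈ powersetCard s (univ : Finset (Fin m)),
      (univ.filter fun F : Fin m → α => ∀ c ∈ S, p (F c)).card =
        (univ.filter p).card ^ s * Fintype.card α ^ (m - s) := by
    intro S hS
    rw [card_forall, (mem_powersetCard.1 hS).2]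
  rw [sum_congr rfl h2, sum_const, card_powersetCard, card_univ, Fintype.card_fin, smul_eq_mul]

theorem pf_PBN : T_PBN := by
  classical
  intro n k m s p
  have hN : ((Fintype.card (Fin k → Fin n × Bool) : ℕ) : ℝ) = (2 * n) ^ k := by
    rw [Fintype.card_fun, Fintype.card_prod, Fintype.card_fin, Fintype.card_fin, Fintype.card_bool]
    push_cast
    rw [mul_comm]
  rcases lt_or_ge m s with hs | hs
  · have h1 : (univ.filter fun F : Fml n k m =>
        s ≤ (univ.filter fun c => p (F c)).card) = ∅ := by
      refine filter_eq_empty_iff.2 fun F _ h => ?_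
      have h2 := card_le_univ (univ.filter fun c => p (F c))
      rw [Fintype.card_fin] at h2
      omega
    rw [h1, card_empty, Nat.cast_zero, zero_mul]
    positivity
  · have h1 := count_le (α := Fin k → Fin n × Bool) m s p
    have h2 : (((univ.filter fun F : Fin m → Fin k → Fin n × Bool =>
        s ≤ (univ.filter fun c => p (F c)).card).card : ℕ) : ℝ) ≤
        m.choose s * (((univ.filter p).card : ℝ) ^ s * ((2 * n) ^ k : ℝ) ^ (m - s)) := by
      rw [← hN]
      exact_mod_cast h1
    have h3 : (0 : ℝ) ≤ ((2 * n) ^ k : ℝ) ^ s := by positivity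
    refine (mul_le_mul_of_nonneg_right h2 h3).trans (le_of_eq ?_)
    have h4 : ((2 * n) ^ k : ℝ) ^ m = ((2 * n) ^ k : ℝ) ^ (m - s) * ((2 * n) ^ k : ℝ) ^ s := by
      rw [← pow_add, Nat.sub_add_cancel hs]
    rw [h4]
    ring

end Pool.Agent.H54.RKS
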